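import Mathlib
import Pool.Prelude.Def_F_c55c3909
import Pool.Agent.Lib.MP_3c30ec_nt.Split

/-!
# Regularity of Diophantine quadruples whose largest element has few prime factors

Let `a < b < c < d` be a Diophantine quadruple that is not regular, with roots
`x² = ad+1`, `y² = bd+1`, `z² = cd+1` and `r² = ab+1`, `s² = ac+1`, `t² = bc+1`. Each of `x, y, z`
splits `d` into a divisor of `x - 1` and a divisor of `x + 1`. For a pair, say `x, y`, the number
`rd - xy` is a square root of `1` modulo `d` with `rd - xy < d / (2√(ab))`. Comparison of sizes
shows that the splittings of `x` and `y` have four nontrivial common cells (the case `4 ∣ d` is a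
borderline case and needs an extra argument); the same holds for `x, z` and `y, z`. Hence `d` has
at least four prime factors, and if there are only four then `z ≡ ±xy` modulo `d` or `d / 2`,
so `z = rd - xy`, which means that the quadruple is regular.
-/

set_option autoImplicit false

open N3d365e8b Pool.Agent.Lib.MP_3c30ec_nt

namespace Pool.Agent.Results.MP_3c30ec_nt.FewPrimeFactors

/-- Let `a < b < c < d` be a Diophantine quadruple and let `d = m n`, where `m ∣ 4` and `n` has at
most four distinct prime factors. Then the quadruple is regular. -/
theorem result (a b c d m n : ℕ) (hab : a < b) (hbc : b < c) (hcd : c < d)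
    (hD : IsIntegralDiophantineTuple {a, b, c, d}) (hd : d = m * n) (hm : m ∣ 4)
    (hn : n.primeFactors.card ≤ 4) :
    d = regularExtension a b c := by
  apply regular_of_not_false hab hbc hcd hD
  intro r s t x y z ha' hab' hbc' hcd' hr hs ht hx hy hz hr0 hs0 ht0 hx0 hy0 hz0 hne1 hne2
  obtain ⟨e, he1, he2⟩ := reduce (by omega) hd hm hn
  exact few_primes ha' hab' hbc' hcd' hr hs ht hx hy hz hr0 hs0 ht0 hx0 hy0 hz0 hne1 hne2
    he1 he2

end Pool.Agent.Results.MP_3c30ec_nt.FewPrimeFactors
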