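import Mathlib
import Pool.Prelude.Def_F_c55c3909
import Pool.Agent.Lib.MP_3c30ec_nt.Split

/-!
# Regularity of Diophantine quadruples whose largest element has a large divisor with few square
roots of unity

Let `a < b < c < d` be a Diophantine quadruple that is not regular. Then the five numbers
`1, √(ad+1), √(bd+1), √(cd+1), √(a'd+1)`, where `a'` is the smaller regular extension of
`{b, c, d}`, are square roots of `1` modulo `d`, all of size less than `d / (2√(bc))`, and they are
distinct. Hence they are distinct up to sign modulo every divisor `n ≥ d/√(bc)` of `d`, and there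
are at least ten square roots of `1` modulo `n`.
-/

set_option autoImplicit false

open N3d365e8b Pool.Agent.Lib.MP_3c30ec_nt

namespace Pool.Agent.Results.MP_3c30ec_nt.FewRootsOfUnity

/-- Let `a < b < c < d` be a Diophantine quadruple and let `d = m n` with `m² ≤ bc`. If `u² ≡ 1`
modulo `n` has at most nine solutions, in particular if `8 ∤ n` and `n` has at most three distinct
prime factors, then the quadruple is regular. -/
theorem result (a b c d m n : ℕ) (hab : a < b) (hbc : b < c) (hcd : c < d)
    (hD : IsIntegralDiophantineTuple {a, b, c, d}) (hd : d = m * n) (hm : m ^ 2 ≤ b * c)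
    (hn : ((Finset.range n).filter fun u => u ^ 2 ≡ 1 [MOD n]).card ≤ 9 ∨
      (¬ 8 ∣ n ∧ n.primeFactors.card ≤ 3)) :
    d = regularExtension a b c := by
  have hn9 : ((Finset.range n).filter fun u => u ^ 2 ≡ 1 [MOD n]).card ≤ 9 := by
    rcases hn with h | h
    · exact h
    · exact (few_roots h.1 h.2).trans (by norm_num)
  apply regular_of_not_false hab hbc hcd hD
  intro r s t x y z ha' hab' hbc' hcd' hr hs ht hx hy hz hr0 hs0 ht0 hx0 hy0 hz0 hne1 hne2
  have hd' : (d : ℤ) = (m : ℤ) * n := by exact_mod_cast hd
  have hm' : (m : ℤ) ^ 2 ≤ (b : ℤ) * c := by exact_mod_cast hm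
  obtain ⟨S, hS1, hS2, hS3, hS4⟩ := five_roots ha' hab' hbc' hcd' hs ht hx hy hz hs0 ht0 hx0
    hy0 hz0 hne1
  exact pigeon (by linarith) hd' (mul_pos (by linarith) (by linarith)) hm' S hS1 hS2 hS3 hS4 hn9

end Pool.Agent.Results.MP_3c30ec_nt.FewRootsOfUnity
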