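import Mathlib
import Pool.Prelude.Def_F_c55c3909
import Pool.Agent.Lib.Irr.Final

/-!
# There are only finitely many irregular Diophantine quadruples

A quadruple `(a,b,c,d)` of positive integers, `a, b, c` distinct, `d > max(a,b,c)`, such that the
product of any two elements increased by one is a square, satisfies `d = d_+(a,b,c)`, with at most
finitely many exceptions, and these satisfy explicit bounds. In particular the strong Diophantine
quintuple conjecture holds for all but finitely many Diophantine triples.
-/

set_option autoImplicit false

open N3d365e8b

namespace Pool.Agent.Results.MP_3c30ec_nt.FiniteIrregular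

/-- The set of irregular Diophantine quadruples is finite; every irregular quadruple satisfies
`max(a,b,c) < 2^150000` and `log d < 2^4600`. -/
theorem result :
    {q : ℕ × ℕ × ℕ × ℕ | Irr.IsIrregular q.1 q.2.1 q.2.2.1 q.2.2.2}.Finite ∧
    ∀ a b c d : ℕ, Irr.IsIrregular a b c d →
      max a (max b c) < 2^150000 ∧ Real.log d < 2^4600 :=
  ⟨Irr.irregular_finite, fun _ _ _ _ h => Irr.irregular_bounds h⟩

end Pool.Agent.Results.MP_3c30ec_nt.FiniteIrregular
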