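import Mathlib
import Pool.Prelude.Def_F_c55c3909
import Pool.Agent.Lib.Irr.Final

/-!
# Irregular extensions are exponentially large

For an irregular Diophantine quadruple with `d > max(a,b,c)` one has
`max(a,b,c) <= (10 (log d + 2))^32`. The proof is elementary (no linear forms in logarithms).
-/

set_option autoImplicit false

open N3d365e8b

namespace Pool.Agent.Results.MP_3c30ec_nt.IrregularLowerBound

/-- Every irregular Diophantine quadruple satisfies `max(a,b,c) <= (10 (log d + 2))^32`. -/
theorem result (a b c d : ℕ) (h : Irr.IsIrregular a b c d) :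
    ((max a (max b c) : ℕ) : ℝ) ≤ (10 * (Real.log d + 2)) ^ 32 :=
  Irr.irregular_lower h

end Pool.Agent.Results.MP_3c30ec_nt.IrregularLowerBound
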